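import Pool.Agent.H44.GT.Targets

/-!
# M_MSW: long words have a small mass
-/

set_option autoImplicit false

open Pool.Agent.H44.DU

namespace Pool.Agent.H39.GD

variable {n : ℕ}

/-- disjoint intervals in an interval and a monotone function -/
theorem sum_intervals (f : ℝ → ℝ) (hf : _root_.Monotone f) (A : ℝ) (a b : ℕ → ℝ)
    (K : Finset ℕ) :
    ∀ B : ℝ, A ≤ B → (∀ k ∈ K, A ≤ a k ∧ a k < b k ∧ b k ≤ B) →
      (∀ k ∈ K, ∀ k' ∈ K, k ≠ k' → b k ≤ a k' ∨ b k' ≤ a k) →
      ∑ k ∈ K, (f (b k) - f (a k)) ≤ f B - f A := by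
  refine Finset.induction_on_max_value b K ?_ ?_
  · intro B hAB _ _
    rw [Finset.sum_empty]
    linarith [hf hAB]
  · intro k0 s hk0 hmax ih B hAB h1 h2
    rw [Finset.sum_insert hk0]
    obtain ⟨h3, h4, h5⟩ := h1 k0 (Finset.mem_insert_self _ _)
    have h6 := ih (a k0) h3 ?_ ?_
    · have := hf h5
      linarith
    · intro k hk
      obtain ⟨g1, g2, g3⟩ := h1 k (Finset.mem_insert_of_mem hk)
      refine ⟨g1, g2, ?_⟩
      have hne : k ≠ k0 := by rintro rfl; exact hk0 hk
      rcases h2 k (Finset.mem_insert_of_mem hk) k0 (Finset.mem_insert_self _ _) hne with h | h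
      · exact h
      · exfalso
        have := hmax k hk
        linarith
    · intro k hk k' hk' hne
      exact h2 k (Finset.mem_insert_of_mem hk) k' (Finset.mem_insert_of_mem hk') hne

/-- equality of shifted parts of a word gives powers -/
theorem power_prefix {α : Type} (D : List α) (q N : ℕ)
    (h : D.take N = (D.drop q).take N) :
    ∀ J : ℕ, q * (J - 1) ≤ N → D.take (q * J) = (List.replicate J (D.take q)).flatten := by
  intro J
  induction J with
  | zero => intro _; simp
  | succ J ih =>
    intro hJ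
    have h1 : q * (J + 1) = q + q * J := by ring
    have h2 : q * J ≤ N := by simpa using hJ
    have h3 : q * (J - 1) ≤ N := le_trans (Nat.mul_le_mul_left q (Nat.sub_le J 1)) h2
    rw [h1, List.take_add, List.replicate_succ, List.flatten_cons]
    congr 1
    rw [← ih h3]
    have h4 := congrArg (List.take (q * J)) h
    rw [List.take_take, List.take_take, min_eq_left h2] at h4
    exact h4.symm

variable (S : Surf n)

theorem lo_take (t : ℝ) : ∀ (v u : List (Side n)), v ≠ [] → v <+: u →
    S.lo t v ≤ S.lo t u ∧ S.hi t u ≤ S.hi t v := by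
  intro v
  induction v with
  | nil => intro u h; exact absurd rfl h
  | cons s v ih =>
    intro u _ hu
    obtain ⟨z, rfl⟩ := hu
    cases v with
    | nil =>
      cases z with
      | nil => simp
      | cons s' z =>
        simp only [List.cons_append, List.nil_append, Surf.lo, Surf.hi]
        exact ⟨le_max_left _ _, min_le_left _ _⟩
    | cons s1 v =>
      have h1 := ih ((s1 :: v) ++ z) (by simp) (List.prefix_append _ _)
      have ha := S.a_pos s
      simp only [List.cons_append, Surf.lo, Surf.hi] at h1 ⊢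
      constructor
      · refine max_le_max le_rfl ?_
        rw [div_le_div_iff_of_pos_right ha]
        linarith [h1.1]
      · refine min_le_min le_rfl ?_
        rw [div_le_div_iff_of_pos_right ha]
        linarith [h1.2]

/-- the mass of a word -/
noncomputable def mss (t : ℝ) (p : Fin n → ℝ → ℝ) (r : Side n) (u : List (Side n)) : ℝ :=
  p (u.headD r).1 (S.hi t u) - p (u.headD r).1 (S.lo t u)

variable {S}

theorem mss_cons (hLH : T_LH) {t κ M : ℝ} {p : Fin n → ℝ → ℝ} (hp : S.AM t κ M p)
    (r s s' : Side n) (u : List (Side n)) (x : ℝ) (hx : S.Run t (s :: s' :: u) x) :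
    mss S t p r (s :: s' :: u) ≤ mss S t p r (s' :: u) + κ := by
  have h1 := (hLH n S t (s :: s' :: u) (by simp) x).1 hx
  have h2 : (S.gl s).1 = s'.1 := ((S.run_cons_cons t s s' u x).1 hx).2.1
  have ha := S.a_pos s
  have e1 : S.lo t (s :: s' :: u) =
      max (xi t (S.Q s)) ((S.lo t (s' :: u) - xi t (S.b s)) / S.a s) := rfl
  have e2 : S.hi t (s :: s' :: u) =
      min (xi t (S.P s)) ((S.hi t (s' :: u) - xi t (S.b s)) / S.a s) := rfl
  have h3 : S.lo t (s' :: u) ≤ S.mv t s (S.lo t (s :: s' :: u)) := by
    have h4 : (S.lo t (s' :: u) - xi t (S.b s)) / S.a s ≤ S.lo t (s :: s' :: u) := by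
      rw [e1]; exact le_max_right _ _
    rw [div_le_iff₀ ha] at h4
    unfold Surf.mv
    linarith
  have h5 : S.mv t s (S.hi t (s :: s' :: u)) ≤ S.hi t (s' :: u) := by
    have h4 : S.hi t (s :: s' :: u) ≤ (S.hi t (s' :: u) - xi t (S.b s)) / S.a s := by
      rw [e2]; exact min_le_right _ _
    rw [le_div_iff₀ ha] at h4
    unfold Surf.mv
    linarith
  have h6 := hp.glue s (S.lo t (s :: s' :: u)) (S.hi t (s :: s' :: u))
    (by rw [e1]; exact le_max_left _ _) (h1.2.1.trans h1.2.2).le
    (by rw [e2]; exact min_le_left _ _)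
  have h7 := hp.mono s'.1 h3
  have h8 := hp.mono s'.1 h5
  rw [h2] at h6
  have h9 := (abs_le.1 h6).1
  simp only [mss, List.headD_cons]
  linarith

theorem mss_drop (hLH : T_LH) {t κ M : ℝ} {p : Fin n → ℝ → ℝ} (hp : S.AM t κ M p)
    (r : Side n) : ∀ (k : ℕ) (u : List (Side n)) (x : ℝ), S.Run t u x → k < u.length →
    mss S t p r u ≤ mss S t p r (u.drop k) + k * κ := by
  intro k
  induction k with
  | zero => intro u x _ _; simp
  | succ k ih =>
    intro u x hx hk
    match u, hx, hk with
    | [], _, hk => simp at hk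
    | [s], _, hk => simp at hk
    | s :: s' :: u, hx, hk =>
      have h1 := mss_cons hLH hp r s s' u x hx
      have h2 := ih (s' :: u) _ ((S.run_cons_cons t s s' u x).1 hx).2.2 (by simpa using hk)
      rw [List.drop_succ_cons]
      push_cast
      linarith

theorem mss_take {t κ M : ℝ} {p : Fin n → ℝ → ℝ} (hp : S.AM t κ M p) (r : Side n)
    (u : List (Side n)) (N : ℕ) (hN : 0 < N) (hu : u ≠ []) :
    mss S t p r u ≤ mss S t p r (u.take N) := by
  obtain ⟨s, u', rfl⟩ := List.exists_cons_of_ne_nil hu
  obtain ⟨N', rfl⟩ := Nat.exists_eq_succ_of_ne_zero hN.ne'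
  have h1 := lo_take S t ((s :: u').take (N' + 1)) (s :: u') (by simp) (List.take_prefix _ _)
  rw [List.take_succ_cons] at h1 ⊢
  simp only [mss, List.headD_cons]
  have h2 := hp.mono s.1 h1.1
  have h3 := hp.mono s.1 h1.2
  linarith

/-- the ends of the interval of a word are in the range of the triangle -/
theorem range_word (t : ℝ) (s : Side n) (u : List (Side n)) :
    S.xl t s.1 ≤ S.lo t (s :: u) ∧ S.hi t (s :: u) ≤ S.xr t s.1 := by
  have h1 : xi t (S.Q s) ≤ S.lo t (s :: u) ∧ S.hi t (s :: u) ≤ xi t (S.P s) := by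
    cases u with
    | nil => exact ⟨le_rfl, le_rfl⟩
    | cons s' u => exact ⟨le_max_left _ _, min_le_left _ _⟩
  have h2 : ∀ k : Fin 3, S.xl t s.1 ≤ xi t (S.v s.1 k) ∧ xi t (S.v s.1 k) ≤ S.xr t s.1 := by
    intro k
    unfold Surf.xl Surf.xr
    fin_cases k
    · exact ⟨min_le_left _ _, le_max_left _ _⟩
    · exact ⟨(min_le_right _ _).trans (min_le_left _ _),
        (le_max_left _ _).trans (le_max_right _ _)⟩
    · exact ⟨(min_le_right _ _).trans (min_le_right _ _),
        (le_max_right _ _).trans (le_max_right _ _)⟩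
  exact ⟨(h2 _).1.trans h1.1, h1.2.trans (h2 _).2⟩

theorem pf_M_MSW (hPER : M_PER) (hLC : M_LC) (hFD : T_FD) (hLH : T_LH) : M_MSW := by
  intro n S t c M ε hKM hM hε
  -- the parameters
  obtain ⟨m, hm⟩ := exists_nat_gt (max (2 * (n * M) / ε) 0)
  have hm0 : (0 : ℝ) < m := (le_max_right _ _).trans_lt hm
  have hm1 : 0 < m := by exact_mod_cast hm0
  have hm2 : (n : ℝ) * M ≤ m * (ε / 2) := by
    have h1 : 2 * (n * M) / ε < m := (le_max_left _ _).trans_lt hm
    rw [div_lt_iff₀ hε] at h1
    linarith
  obtain ⟨J, hJ⟩ := hPER n S t c hKM m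
  refine ⟨m * J + m, by omega, ?_⟩
  -- a common neighbourhood for the powers
  have hev : ∀ u ∈ {u : List (Side n) | u.length ≤ m}, ∀ᶠ t' in nhds t,
      u ≠ [] → ∀ x, ¬ S.Run t' ((List.replicate J u).flatten) x := by
    intro u hu
    by_cases hu0 : u = []
    · exact Filter.Eventually.of_forall fun t' h => absurd hu0 h
    · have hJu := hJ u hu0 hu
      have hne : (List.replicate J u).flatten ≠ [] := by
        intro h0
        have := hJu 0
        rw [h0] at this
        exact this (S.run_nil t 0)
      obtain ⟨δ, hδ, hδ'⟩ := hLC n S t hKM.ok.gd _ hne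
      rw [Metric.eventually_nhds_iff]
      refine ⟨δ, hδ, fun t' ht' _ x hx => ?_⟩
      rw [Real.dist_eq] at ht'
      obtain ⟨y, hy⟩ := (hδ' t' ht').1 ⟨x, hx⟩
      exact hJu y hy
  have hall := (Filter.eventually_all_finite (List.finite_length_le (Side n) m)).2 hev
  rw [Metric.eventually_nhds_iff] at hall
  obtain ⟨δ, hδ, hδ'⟩ := hall
  refine ⟨δ, hδ, ε / (2 * m), by positivity, ?_⟩
  intro t' ht' p hp r w hlen hrun
  obtain ⟨x₀, hx₀⟩ := hrun
  have hno : ∀ u : List (Side n), u.length ≤ m → u ≠ [] →
      ∀ x, ¬ S.Run t' ((List.replicate J u).flatten) x := by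
    intro u hu hu0 x
    exact hδ' (by rw [Real.dist_eq]; exact ht') u hu hu0 x
  have hJ1 : 0 < J := by
    rcases Nat.eq_zero_or_pos J with h | h
    · exfalso
      have := hno [r] (by rw [List.length_singleton]; exact hm1) (by simp) 0
      rw [h] at this
      exact this (S.run_nil t' 0)
    · exact h
  set W : List (Side n) := r :: w with hW
  set N : ℕ := m * J with hN
  have hN0 : 0 < N := Nat.mul_pos hm1 hJ1
  -- the words
  have hdne : ∀ k, k < m → W.drop k ≠ [] := by
    intro k hk h0
    have h1 := congrArg List.length h0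
    rw [List.length_drop, List.length_nil] at h1
    omega
  have hvlen : ∀ k, k < m → ((W.drop k).take N).length = N := by
    intro k hk
    rw [List.length_take, List.length_drop]
    omega
  have hvrun : ∀ k, S.Run t' ((W.drop k).take N) (S.g t' (W.take k) x₀) := fun k =>
    S.run_take (S.run_drop hx₀ k) N
  have hvne : ∀ k, k < m → (W.drop k).take N ≠ [] := by
    intro k hk h0
    have h1 := hvlen k hk
    rw [h0, List.length_nil] at h1
    omega
  have hone : ∀ k, k < m →
      mss S t' p r W ≤ mss S t' p r ((W.drop k).take N) + m * (ε / (2 * m)) := by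
    intro k hk
    have h1 := mss_drop hLH hp r k W x₀ hx₀ (by omega)
    have h2 := mss_take hp r (W.drop k) N hN0 (hdne k hk)
    have h3 : (k : ℝ) * (ε / (2 * m)) ≤ m * (ε / (2 * m)) := by
      refine mul_le_mul_of_nonneg_right ?_ (by positivity)
      exact_mod_cast hk.le
    linarith
  set a : ℕ → ℝ := fun k => S.lo t' ((W.drop k).take N) with ha
  set b : ℕ → ℝ := fun k => S.hi t' ((W.drop k).take N) with hb
  set i : ℕ → Fin n := fun k => (((W.drop k).take N).headD r).1 with hi
  have hab : ∀ k, k < m → a k < b k := by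
    intro k hk
    have h1 := (hLH n S t' _ (hvne k hk) _).1 (hvrun k)
    exact h1.2.1.trans h1.2.2
  have hrange : ∀ k, k < m → S.xl t' (i k) ≤ a k ∧ b k ≤ S.xr t' (i k) := by
    intro k hk
    obtain ⟨s, u, hsu⟩ := List.exists_cons_of_ne_nil (hvne k hk)
    have h1 := range_word (S := S) t' s u
    simp only [ha, hb, hi, hsu, List.headD_cons]
    exact h1
  have hdisj : ∀ k k', k < k' → k' < m → i k = i k' → b k ≤ a k' ∨ b k' ≤ a k := by
    intro k k' hkk hk' hii
    by_contra hcon
    rw [not_or, not_le, not_le] at hcon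
    have hk : k < m := hkk.trans hk'
    have h1 := hab k hk
    have h2 := hab k' hk'
    have h0 : max (a k) (a k') < min (b k) (b k') :=
      max_lt (lt_min h1 hcon.2) (lt_min hcon.1 h2)
    obtain ⟨x, hx1, hx2⟩ := exists_between h0
    rw [max_lt_iff] at hx1
    rw [lt_min_iff] at hx2
    have r1 : S.Run t' ((W.drop k).take N) x :=
      (hLH n S t' _ (hvne k hk) x).2
        ⟨((hLH n S t' _ (hvne k hk) _).1 (hvrun k)).1, hx1.1, hx2.1⟩
    have r2 : S.Run t' ((W.drop k').take N) x :=
      (hLH n S t' _ (hvne k' hk') x).2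
        ⟨((hLH n S t' _ (hvne k' hk') _).1 (hvrun k')).1, hx1.2, hx2.2⟩
    have h3 : (W.drop k).take N = (W.drop k').take N := by
      have h4 := hFD n S t' x _ _ r1 r2 (by
        intro s hs s' hs'
        obtain ⟨s1, u1, e1⟩ := List.exists_cons_of_ne_nil (hvne k hk)
        obtain ⟨s2, u2, e2⟩ := List.exists_cons_of_ne_nil (hvne k' hk')
        simp only [hi, e1, e2, List.headD_cons] at hii
        rw [e1, List.head?_cons, Option.mem_some_iff] at hs
        rw [e2, List.head?_cons, Option.mem_some_iff] at hs'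
        rw [← hs, ← hs']
        exact hii)
      rcases h4 with h4 | h4
      · exact h4.eq_of_length (by rw [hvlen k hk, hvlen k' hk'])
      · exact (h4.eq_of_length (by rw [hvlen k hk, hvlen k' hk'])).symm
    have h5 : W.drop k' = (W.drop k).drop (k' - k) := by
      rw [List.drop_drop]
      congr 1
      omega
    rw [h5] at h3
    have h6 := power_prefix (W.drop k) (k' - k) N h3 J (by
      rw [hN]
      exact Nat.mul_le_mul (by omega) (by omega))
    refine hno ((W.drop k).take (k' - k)) ?_ ?_ (S.g t' (W.take k) x₀) ?_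
    · rw [List.length_take]
      omega
    · intro h0
      have h7 := congrArg List.length h0
      rw [List.length_take, List.length_drop, List.length_nil] at h7
      omega
    · rw [← h6]
      exact S.run_take (S.run_drop hx₀ k) _
  -- the sum
  have hsum1 : (m : ℝ) * mss S t' p r W ≤
      (∑ k ∈ Finset.range m, mss S t' p r ((W.drop k).take N)) + m * (m * (ε / (2 * m))) := by
    have h1 : ∑ _k ∈ Finset.range m, mss S t' p r W ≤
        ∑ k ∈ Finset.range m, (mss S t' p r ((W.drop k).take N) + m * (ε / (2 * m))) :=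
      Finset.sum_le_sum fun k hk => hone k (Finset.mem_range.1 hk)
    rw [Finset.sum_const, Finset.card_range, nsmul_eq_mul, Finset.sum_add_distrib,
      Finset.sum_const, Finset.card_range, nsmul_eq_mul] at h1
    exact h1
  have hsum2 : ∑ k ∈ Finset.range m, mss S t' p r ((W.drop k).take N) ≤ n * M := by
    have h1 : ∑ k ∈ Finset.range m, mss S t' p r ((W.drop k).take N) =
        ∑ j : Fin n, ∑ k ∈ (Finset.range m).filter (fun k => i k = j),
          (p j (b k) - p j (a k)) := by
      rw [← Finset.sum_fiberwise (Finset.range m) i]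
      refine Finset.sum_congr rfl fun j _ => Finset.sum_congr rfl fun k hk => ?_
      rw [Finset.mem_filter] at hk
      rw [← hk.2]
      rfl
    rw [h1]
    have h2 : ∀ j ∈ (Finset.univ : Finset (Fin n)),
        ∑ k ∈ (Finset.range m).filter (fun k => i k = j), (p j (b k) - p j (a k)) ≤ M := by
      intro j _
      have hlr : S.xl t' j ≤ S.xr t' j := by
        unfold Surf.xl Surf.xr
        exact (min_le_left _ _).trans (le_max_left _ _)
      have h3 := sum_intervals (p j) (hp.mono j) (S.xl t' j) a b
        ((Finset.range m).filter (fun k => i k = j)) (S.xr t' j) hlr (by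
          intro k hk
          rw [Finset.mem_filter, Finset.mem_range] at hk
          have := hrange k hk.1
          rw [hk.2] at this
          exact ⟨this.1, hab k hk.1, this.2⟩) (by
          intro k hk k' hk' hne
          rw [Finset.mem_filter, Finset.mem_range] at hk hk'
          rcases lt_or_gt_of_ne hne with h | h
          · exact hdisj k k' h hk'.1 (hk.2.trans hk'.2.symm)
          · exact (hdisj k' k h hk.1 (hk'.2.trans hk.2.symm)).symm)
      have h4 := hp.left j (S.xl t' j) le_rfl
      have h5 := hp.mass j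
      linarith
    refine (Finset.sum_le_sum h2).trans (le_of_eq ?_)
    rw [Finset.sum_const, Finset.card_univ, Fintype.card_fin, nsmul_eq_mul]
  have hfin : mss S t' p r W = p r.1 (S.hi t' W) - p r.1 (S.lo t' W) := rfl
  rw [← hfin]
  have e1 : (m : ℝ) * (m * (ε / (2 * m))) = m * (ε / 2) := by
    field_simp
  have h9 : (m : ℝ) * mss S t' p r W ≤ m * ε := by
    rw [e1] at hsum1
    linarith
  exact le_of_mul_le_mul_left h9 hm0

end Pool.Agent.H39.GD
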